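import Pool.Agent.TH739.Pois.Joint

/-!
# Cubic (and longer) averages for systems whose tail comes from Gaussian systems and Poisson
suspensions

`IsExhaustive μ T 𝒜`: `𝒜` is a sub-σ-algebra with `T⁻¹ 𝒜 ⊆ 𝒜`, and for every measurable `B` some
`T^{-k} B` is arbitrarily close to a set of `𝒜` (for invertible `T` this means that the σ-algebras
`T^k 𝒜` increase to the full one; the full σ-algebra itself is always exhaustive).

`IsTailSet μ T 𝒜 B`: `B` is measurable and for every `k` is, modulo null sets, of the form
`T^{-k} C` with `C ∈ 𝒜`.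

`IsGaussian ν S`: `S` is an invertible bi-measurable map preserving the probability measure `ν`, and
some linear space of centered Gaussian random variables is invariant modulo null sets under `S`,
`S⁻¹` and generates the σ-algebra modulo null sets. The spectral type is arbitrary.

`IsPoisson κ V ν S`: the map `V` preserves the (typically infinite) measure `κ`, the map `S`
preserves the probability measure `ν`, and there are events `E A` (that no point of the configuration
lies in `A`) for the measurable sets `A` with `κ A < ∞`, which generate the σ-algebra modulo null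
sets, such that `ν (E A) = exp (-κ A)`, `E (A ∪ B) = E A ∩ E B` and `S⁻¹ (E A) = E (V⁻¹ A)` modulo
null sets. By the theorem of Rényi these are the Poisson suspensions of the maps `V` (if `κ` has
atoms, only the set of the occupied points is considered). Such a system exists for every `V`
(`Pool.Agent.TH739.Poi.exists_isPoisson`).

`HasRate κ V`: there is a family of sets of finite measure, dense among all such sets, such that for
`A`, `B` in the family there are a set `Z` of times of density zero and a number `c > 0` with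
`(1/N) ∑_{n < N, n ∉ Z} κ (A ∩ V^{-n} B) ≤ (log N)^{-c}` for all large `N`.

`BourgainTheorem`: the averages `(1/N) ∑_{n=1}^N 1_F (R^{an} ω) 1_G (R^{bn} ω)` converge almost
everywhere for every measure preserving map `R` of a probability space, all measurable `F`, `G` and
all natural `a`, `b` (a published theorem of Bourgain, 1990; it is not used for the first
alternative of the hypothesis).
-/

set_option autoImplicit false

open Filter Topology MeasureTheory
open scoped ENNReal

namespace Pool.Agent.Results.MP_9721b5_an.GaussianPoisson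

open Pool.Agent.W761.Tail Pool.Agent.TH739.Poi

/-- Let `T` be a measure preserving map (not necessarily invertible) of the probability space
`(X, μ)`, and `𝒜` an exhaustive σ-algebra. Let `(Y₁, ν₁, S₁)` be a Gaussian system of any spectral
type, and `(Y₂, ν₂, S₂)` a Poisson suspension of a measure preserving map `V` of an s-finite
measure `κ` on `W`, where either `V` has the logarithmic rate property, or `S₂` is ergodic (and then
Bourgain's theorem on double averages is used). Suppose that `(X, μ, T)` has a factor `(Z, ρ, R)`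
which contains the tail of `𝒜` and which is also a factor of the product of `(Y₁, ν₁, S₁)` and
`(Y₂, ν₂, S₂)`. Then for all `m` and `f_1, …, f_m ∈ L^∞(μ)` the averages
`(1/N) ∑_{n=1}^N f_1 (T^n x) f_2 (T^{2n} x) ⋯ f_m (T^{mn} x)` converge for almost every `x`. -/
theorem result (m : ℕ) {X Y₁ Y₂ W Z : Type} {𝒜 : MeasurableSpace X} [mX : MeasurableSpace X]
    [MeasurableSpace Y₁] [MeasurableSpace Y₂] [MeasurableSpace W] [Nonempty W]
    [MeasurableSpace Z] (μ : Measure X) [IsProbabilityMeasure μ]
    (ν₁ : Measure Y₁) [IsProbabilityMeasure ν₁] (ν₂ : Measure Y₂) [IsProbabilityMeasure ν₂]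
    (κ : Measure W) [SFinite κ] (ρ : Measure Z)
    (T : X → X) (hT : MeasurePreserving T μ μ) (h𝒜 : IsExhaustive μ T 𝒜)
    (R : Z → Z) (hR : Measurable R) (φ : X → Z) (hφ : MeasurePreserving φ μ ρ)
    (hφT : ∀ᵐ x ∂μ, φ (T x) = R (φ x))
    (htail : ∀ B, IsTailSet μ T 𝒜 B → ∃ D, MeasurableSet D ∧ B =ᵐ[μ] φ ⁻¹' D)
    (S₁ : Equiv.Perm Y₁) (hS₁ : IsGaussian ν₁ S₁)
    (V : W → W) (S₂ : Y₂ → Y₂) (hS₂ : IsPoisson κ V ν₂ S₂)
    (hcond : HasRate κ V ∨ (BourgainTheorem ∧ Ergodic S₂ ν₂))
    (π : Y₁ × Y₂ → Z) (hπ : MeasurePreserving π (ν₁.prod ν₂) ρ)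
    (hπS : ∀ᵐ y ∂(ν₁.prod ν₂), π (S₁ y.1, S₂ y.2) = R (π y))
    (f : Fin m → X → ℂ) (hf : ∀ j, MemLp (f j) ∞ μ) :
    ∀ᵐ x ∂μ, ∃ L : ℂ, Tendsto (fun N : ℕ => (N : ℂ)⁻¹ * ∑ n ∈ Finset.Icc 1 N,
      ∏ j : Fin m, f j (T^[((j : ℕ) + 1) * n] x)) atTop (𝓝 L) :=
  tail_red hT h𝒜 hR hφ hφT htail (S := Prod.map S₁ S₂) (hS₁.mp.prod hS₂.mp) hπ hπS
    (fun _ hg => conv_prod hS₁ hS₂ hcond hg) hf

end Pool.Agent.Results.MP_9721b5_an.GaussianPoisson
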