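import Pool.Agent.TH290.RM.Base

/-!
# Multiple averages of extensions with mixing fibres, over arbitrary systems

`sk S ψ` is the map `T (x, y) = (S x, ψ x y)`, and `it S ψ t x y` is the second coordinate of
`T^t (x, y)`.

`IsMixingExtension K μ S ν ψ`: `S` preserves the probability measure `μ` on `X` (it is an arbitrary
measure preserving map, not necessarily ergodic), `ψ` is jointly measurable and for almost every `x`
the fibre map `ψ x` preserves the probability measure `ν` on `Y`, and the fibres are mixing of order
`K` with log-summable rates: there is a family `𝒟` of measurable functions `g : Y → [-1, 1]` of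
integral zero, which together with the constants span a dense subspace of `L¹(ν)`, such that for all
`g_1, …, g_k` in `𝒟`, `2 ≤ k ≤ K`, there is `r ≥ 0` with `∑_h r h / (h + 1) < ∞` and
`∫ |∫ ∏_i g_i (it S ψ t_i x y) dν(y)| dμ(x) ≤ ∑_{i ≠ j} r |t_i - t_j|` for all times
`t_1, …, t_k`. (For distinct times this is quantitative mixing of order `k` along the fibres, in the
mean over the base; nothing is required for two equal times, since `r 0` may be large.)

Examples. Direct products `T = S × R`, for arbitrary `S`, where for a dense class of functions the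
correlations of `R` of order `k ≤ K` are bounded by a power (or by `log^{-1-ε}`) of the least gap of
the times: for instance, by the quantitative multiple mixing of Björklund, Einsiedler and Gorodnik,
translations `R` of homogeneous spaces `G/Γ` of semisimple Lie groups (with strong spectral gap) by a
unipotent element, or by any element whose powers are unbounded. Skew products
`T (x, y) = (S x, α x • y)` over an arbitrary `S` given by a cocycle `α` with values in such a group
`G`, if `∑_h (1/h) ∫ ‖α_h x‖^{-δ} dμ(x) < ∞` for all `δ > 0`, or with values in a countable group which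
acts on `Y` by a Bernoulli shift, if `∑_h μ (α_h ∈ F) / h < ∞` for all finite `F`
(`α_h x = α (S^{h-1} x) ⋯ α x`).
-/

set_option autoImplicit false

open Filter Topology MeasureTheory
open scoped ENNReal

namespace Pool.Agent.Results.MP_9721b5_an.MixingExtensions

open Pool.Agent.TH290.RM Pool.Agent.TH739.PS Pool.Agent.W761.Tail

/-- Let `T (x, y) = (S x, ψ x y)` be an extension of an arbitrary measure preserving system
`(X, μ, S)` whose fibres are mixing of order `2 m` with log-summable rates.
(1) The base is characteristic for almost everywhere convergence: for all distinct positive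
`a_1, …, a_m` and `f_1, …, f_m ∈ L^∞(μ × ν)` the averages over `n = 1, …, N` of
`∏_j f_j (T^{a_j n} z) - ∏_j E(f_j | X) (S^{a_j n} x)` tend to zero for almost every `z = (x, y)`.
(2) If the averages `(1/N) ∑_{n=1}^N g_1 (S^n x) ⋯ g_m (S^{mn} x)` converge almost everywhere for all
bounded measurable `g_j` on the base, then they converge almost everywhere for all `f_j ∈ L^∞` on
every system `(V, P, U)` (not necessarily invertible) which has a factor `(Z, ρ, Q)` that is also a
factor of `T` and contains the tail of some exhaustive σ-algebra `𝒜` of `(V, P, U)`, in particular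
for `T` itself and its factors. -/
theorem result (m : ℕ) {X Y : Type} [MeasurableSpace X] [MeasurableSpace Y]
    (μ : Measure X) [IsProbabilityMeasure μ] (ν : Measure Y) [IsProbabilityMeasure ν]
    (S : X → X) (ψ : X → Y → Y) (h : IsMixingExtension (2 * m) μ S ν ψ) :
    (∀ a : Fin m → ℕ, (∀ j, 0 < a j) → Function.Injective a →
      ∀ f : Fin m → X × Y → ℂ, (∀ j, MemLp (f j) ∞ (μ.prod ν)) →
      ∀ᵐ z ∂(μ.prod ν), Tendsto (fun N : ℕ => (N : ℂ)⁻¹ * ∑ n ∈ Finset.Icc 1 N,
        (∏ j, f j ((sk S ψ)^[a j * n] z) - ∏ j, ∫ y, f j (S^[a j * n] z.1, y) ∂ν))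
        atTop (𝓝 0)) ∧
    (ConvAll m μ S → ∀ {V Z : Type} {𝒜 : MeasurableSpace V} [MeasurableSpace V]
      [MeasurableSpace Z] (P : Measure V) [IsProbabilityMeasure P] (ρ : Measure Z) (U : V → V),
      MeasurePreserving U P P → IsExhaustive P U 𝒜 → ∀ Q : Z → Z, Measurable Q →
      ∀ φ : V → Z, MeasurePreserving φ P ρ → (∀ᵐ v ∂P, φ (U v) = Q (φ v)) →
      (∀ B, IsTailSet P U 𝒜 B → ∃ D, MeasurableSet D ∧ B =ᵐ[P] φ ⁻¹' D) →
      ∀ π : X × Y → Z, MeasurePreserving π (μ.prod ν) ρ →
      (∀ᵐ z ∂(μ.prod ν), π (sk S ψ z) = Q (π z)) →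
      ∀ f : Fin m → V → ℂ, (∀ j, MemLp (f j) ∞ P) →
      ∀ᵐ v ∂P, ∃ L : ℂ, Tendsto (fun N : ℕ => (N : ℂ)⁻¹ * ∑ n ∈ Finset.Icc 1 N,
        ∏ j : Fin m, f j (U^[((j : ℕ) + 1) * n] v)) atTop (𝓝 L)) := by
  refine ⟨fun a ha hai f hf => h.char le_rfl ha hai hf, ?_⟩
  intro hb V Z 𝒜 _ _ P _ ρ U hU h𝒜 Q hQ φ hφ hφU htail π hπ hπT f hf
  exact h.tail le_rfl hb hU h𝒜 hQ hφ hφU htail hπ hπT hf

end Pool.Agent.Results.MP_9721b5_an.MixingExtensions
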