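import Pool.Agent.TH739.PS.Main

/-!
# Multiple averages of Poisson extensions of arbitrary systems

`IsPoissonExtension μ S κ θ ν ψ`: `S` preserves the probability measure `μ` on `X`; the maps
`θ x : W → W` and `ψ x : Y → Y` depend measurably on `(x, w)` and `(x, y)`, and for almost every `x`
the map `θ x` preserves the (typically infinite) measure `κ`, the map `ψ x` preserves the probability
measure `ν`; there are events `E A` in `Y` (that no point of the configuration lies in `A`) for the
measurable sets `A` with `κ A < ∞`, generating the σ-algebra modulo null sets, with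
`ν (E A) = exp (-κ A)`, `E (A ∪ B) = E A ∩ E B`, and, for almost every `x` and all `A`,
`(ψ x)⁻¹ (E A) = E ((θ x)⁻¹ A)`, modulo null sets. So `T (x, y) = (S x, ψ x y)` (`sk S ψ`) is the
Poisson suspension of `R (x, w) = (S x, θ x w)` (`sk S θ`) relative to the base `(X, μ, S)`, which is
an arbitrary measure preserving system; a configuration of points is moved by random maps driven by
the base. For example `θ x w = w + c x` on `ℝ` or `ℤ` for a cocycle `c` (the scenery of Poisson
points seen along the sums of `c`). Poisson extensions exist for every action of a countable group on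
an infinite measure space and every measurable cocycle with values in the group
(`Pool.Agent.TH739.PS.of_cocycle` and `Pool.Agent.TH739.PA.exists_isPoissonAction`).

`SummableOverlaps μ S κ θ`: `∑_h r h / (h + 1) < ∞` for
`r h = (μ × κ) ((X × A) ∩ R^{-h} (X × B))`, for all `A`, `B` in some family of sets of finite measure
which is dense among all such sets. (In the example with a cocycle `c` this follows from
`∑_h μ (|c x + c (S x) + ⋯ + c (S^{h-1} x)| ≤ K) / h < ∞` for all `K`.)
-/

set_option autoImplicit false

open Filter Topology MeasureTheory
open scoped ENNReal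

namespace Pool.Agent.Results.MP_9721b5_an.PoissonExtensions

open Pool.Agent.TH739.PS

/-- Let `T (x, y) = (S x, ψ x y)` be a Poisson extension, with summable relative overlaps, of an
arbitrary measure preserving system `(X, μ, S)`. Then the base is a characteristic factor for almost
everywhere convergence: for all distinct positive `a_1, …, a_m` and `f_1, …, f_m ∈ L^∞(μ × ν)` the
averages over `n = 1, …, N` of `∏_j f_j (T^{a_j n} z) - ∏_j E(f_j | X) (S^{a_j n} x)` tend to zero for
almost every `z = (x, y)`. (In particular the averages `(1/N) ∑ ∏_j f_j (T^{a_j n} z)` converge almost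
everywhere whenever those of the conditional expectations do, for instance if one of the conditional
expectations is zero, or if the answer to Q1 is positive for the base.) -/
theorem result (m : ℕ) {X Y W : Type} [MeasurableSpace X] [MeasurableSpace Y] [MeasurableSpace W]
    (μ : Measure X) [IsProbabilityMeasure μ] (ν : Measure Y) [IsProbabilityMeasure ν]
    (κ : Measure W) [SFinite κ] (S : X → X) (θ : X → W → W) (ψ : X → Y → Y)
    (h : IsPoissonExtension μ S κ θ ν ψ) (ho : SummableOverlaps μ S κ θ)
    (a : Fin m → ℕ) (ha : ∀ j, 0 < a j) (hai : Function.Injective a)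
    (f : Fin m → X × Y → ℂ) (hf : ∀ j, MemLp (f j) ∞ (μ.prod ν)) :
    ∀ᵐ z ∂(μ.prod ν), Tendsto (fun N : ℕ => (N : ℂ)⁻¹ * ∑ n ∈ Finset.Icc 1 N,
      (∏ j, f j ((sk S ψ)^[a j * n] z) - ∏ j, ∫ y, f j (S^[a j * n] z.1, y) ∂ν)) atTop (𝓝 0) :=
  h.char ho ha hai hf

end Pool.Agent.Results.MP_9721b5_an.PoissonExtensions
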