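import Pool.Agent.TH739.PS.Main

/-!
# Systems whose tail comes from a Poisson extension: transfer of convergence from the base

`IsPoissonExtension μ S κ θ ν ψ`: `S` preserves the probability measure `μ` on `X`; the maps
`θ x : W → W` and `ψ x : Y → Y` depend measurably on `(x, w)` and `(x, y)`, and for almost every `x`
the map `θ x` preserves the (typically infinite) measure `κ`, the map `ψ x` preserves the probability
measure `ν`; there are events `E A` in `Y` (that no point of the configuration lies in `A`) for the
measurable sets `A` with `κ A < ∞`, generating the σ-algebra modulo null sets, with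
`ν (E A) = exp (-κ A)`, `E (A ∪ B) = E A ∩ E B`, and, for almost every `x` and all `A`,
`(ψ x)⁻¹ (E A) = E ((θ x)⁻¹ A)`, modulo null sets. So `T (x, y) = (S x, ψ x y)` (`sk S ψ`) is the
Poisson suspension of `R (x, w) = (S x, θ x w)` (`sk S θ`) relative to the base `(X, μ, S)`, which is
an arbitrary measure preserving system; a configuration of points is moved by random maps driven by
the base. For example `θ x w = w + c x` on `ℝ` or `ℤ` for a cocycle `c` (the scenery of Poisson
points seen along the sums of `c`). Poisson extensions exist for every action of a countable group on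
an infinite measure space and every measurable cocycle with values in the group
(`Pool.Agent.TH739.PS.of_cocycle` and `Pool.Agent.TH739.PA.exists_isPoissonAction`).

`SummableOverlaps μ S κ θ`: `∑_h r h / (h + 1) < ∞` for
`r h = (μ × κ) ((X × A) ∩ R^{-h} (X × B))`, for all `A`, `B` in some family of sets of finite measure
which is dense among all such sets. (In the example with a cocycle `c` this follows from
`∑_h μ (|c x + c (S x) + ⋯ + c (S^{h-1} x)| ≤ K) / h < ∞` for all `K`.)

`ConvAll m μ S`: the averages `(1/N) ∑_{n=1}^N g_1 (S^n x) g_2 (S^{2n} x) ⋯ g_m (S^{mn} x)` converge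
almost everywhere for all bounded measurable functions on the base.

`IsExhaustive P U 𝒜`: `𝒜` is a sub-σ-algebra with `U⁻¹ 𝒜 ⊆ 𝒜`, and for every measurable `B` some
`U^{-k} B` is arbitrarily close to a set of `𝒜`.

`IsTailSet P U 𝒜 B`: `B` is measurable and for every `k` is, modulo null sets, of the form
`U^{-k} C` with `C ∈ 𝒜`.
-/

set_option autoImplicit false

open Filter Topology MeasureTheory
open scoped ENNReal

namespace Pool.Agent.Results.MP_9721b5_an.TailPoissonExtensions

open Pool.Agent.W761.Tail Pool.Agent.TH739.PS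

/-- Let `T (x, y) = (S x, ψ x y)` be a Poisson extension, with summable relative overlaps, of a
measure preserving system `(X, μ, S)` for which the averages along `n, 2n, …, mn` of bounded functions
converge almost everywhere (for `m = 3`: the answer to Q1 is positive for the base). Let `(V, P, U)` be
a measure preserving system with a factor `(Z, ρ, Q)` which contains the tail of some exhaustive
σ-algebra of `V` and is also a factor of `(X × Y, μ × ν, T)`. Then for all
`f_1, …, f_m ∈ L^∞(P)` the averages `(1/N) ∑_{n=1}^N f_1 (U^n v) f_2 (U^{2n} v) ⋯ f_m (U^{mn} v)`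
converge for almost every `v`. -/
theorem result (m : ℕ) {X Y W V Z : Type} [MeasurableSpace X] [MeasurableSpace Y]
    [MeasurableSpace W] {𝒜 : MeasurableSpace V} [mV : MeasurableSpace V] [MeasurableSpace Z]
    (μ : Measure X) [IsProbabilityMeasure μ] (ν : Measure Y) [IsProbabilityMeasure ν]
    (κ : Measure W) [SFinite κ] (S : X → X) (θ : X → W → W) (ψ : X → Y → Y)
    (h : IsPoissonExtension μ S κ θ ν ψ) (ho : SummableOverlaps μ S κ θ) (hb : ConvAll m μ S)
    (P : Measure V) [IsProbabilityMeasure P] (ρ : Measure Z)
    (U : V → V) (hU : MeasurePreserving U P P) (h𝒜 : IsExhaustive P U 𝒜)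
    (Q : Z → Z) (hQ : Measurable Q) (φ : V → Z) (hφ : MeasurePreserving φ P ρ)
    (hφU : ∀ᵐ v ∂P, φ (U v) = Q (φ v))
    (htail : ∀ B, IsTailSet P U 𝒜 B → ∃ D, MeasurableSet D ∧ B =ᵐ[P] φ ⁻¹' D)
    (π : X × Y → Z) (hπ : MeasurePreserving π (μ.prod ν) ρ)
    (hπT : ∀ᵐ z ∂(μ.prod ν), π (sk S ψ z) = Q (π z))
    (f : Fin m → V → ℂ) (hf : ∀ j, MemLp (f j) ∞ P) :
    ∀ᵐ v ∂P, ∃ L : ℂ, Tendsto (fun N : ℕ => (N : ℂ)⁻¹ * ∑ n ∈ Finset.Icc 1 N,
      ∏ j : Fin m, f j (U^[((j : ℕ) + 1) * n] v)) atTop (𝓝 L) :=
  h.tail ho hb hU h𝒜 hQ hφ hφU htail hπ hπT hf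

end Pool.Agent.Results.MP_9721b5_an.TailPoissonExtensions
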